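import Pool.Agent.H17.QA.Defs

/-!
# HG module Poly: axis parallel polylines as lists of vertices

`run z m σ k`: the `k` vertices `z, z + σ e_m, …` (end excluded). `pl z D`: polyline from `z` with the list
`D` of displacements (direction, signed length), last vertex included. `wire r l`: the list of pairs
`(v, r v)`; if `r` varies at most by a factor two between neighbours it satisfies the hypothesis of
`RoadSys.path`.
-/

open MeasureTheory Filter Topology
open Pool.Agent.H17.IIC Pool.Agent.H41.QC Pool.Agent.H47.GM Pool.Agent.H17.QA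

namespace Pool.Agent.H74.HG

variable {d : ℕ}

lemma latAdj_single (z : V d) (m : Fin d) {σ : ℤ} (h : σ = 1 ∨ σ = -1) :
    LatAdj z (z + Pi.single m σ) := by
  rcases h with rfl | rfl
  · exact ⟨(m, true), by simp [stepVec]⟩
  · exact ⟨(m, false), by simp [stepVec]⟩

/-- `k` vertices from `z` in direction `σ e_m`, end excluded -/
def run (z : V d) (m : Fin d) (σ : ℤ) (k : ℕ) : List (V d) :=
  (List.range k).map fun j : ℕ => z + Pi.single m (σ * (j : ℤ))

lemma length_run (z : V d) (m : Fin d) (σ : ℤ) (k : ℕ) : (run z m σ k).length = k := by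
  simp [run]

lemma mem_run {z v : V d} {m : Fin d} {σ : ℤ} {k : ℕ} :
    v ∈ run z m σ k ↔ ∃ j < k, v = z + Pi.single m (σ * j) := by
  simp only [run, List.mem_map, List.mem_range]
  constructor
  · rintro ⟨j, hj, rfl⟩; exact ⟨j, hj, rfl⟩
  · rintro ⟨j, hj, rfl⟩; exact ⟨j, hj, rfl⟩

lemma run_succ (z : V d) (m : Fin d) (σ : ℤ) (k : ℕ) :
    run z m σ (k + 1) = z :: run (z + Pi.single m σ) m σ k := by
  simp only [run, List.range_succ_eq_map, List.map_cons, List.map_map]
  congr 1
  · simp
  · apply List.map_congr_left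
    intro j _
    simp only [Function.comp]
    rw [add_assoc, ← Pi.single_add]
    congr 2
    push_cast
    ring

/-- a run followed by a chain starting at the end of the run is a chain -/
lemma run_chain (z : V d) (m : Fin d) {σ : ℤ} (hσ : σ = 1 ∨ σ = -1) (k : ℕ) (l : List (V d))
    (hl : l.IsChain LatAdj) (hh : l.head? = some (z + Pi.single m (σ * k))) :
    (run z m σ k ++ l).IsChain LatAdj := by
  induction k generalizing z with
  | zero => simpa [run] using hl
  | succ k ih =>
    rw [run_succ, List.cons_append]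
    have h1 : (run (z + Pi.single m σ) m σ k ++ l).head? = some (z + Pi.single m σ) := by
      cases k with
      | zero =>
        simp only [run, List.range_zero, List.map_nil, List.nil_append]
        rw [hh]; simp
      | succ k => rw [run_succ]; rfl
    have h2 := ih (z + Pi.single m σ) (by
      rw [hh, add_assoc, ← Pi.single_add]
      congr 3
      push_cast
      ring)
    obtain ⟨b, t, hbt⟩ : ∃ b t, run (z + Pi.single m σ) m σ k ++ l = b :: t := by
      cases h : run (z + Pi.single m σ) m σ k ++ l with
      | nil => rw [h] at h1; simp at h1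
      | cons b t => exact ⟨b, t, rfl⟩
    rw [hbt] at h1 h2 ⊢
    rw [List.isChain_cons_cons]
    refine ⟨?_, h2⟩
    have : b = z + Pi.single m σ := by simpa using h1
    rw [this]
    exact latAdj_single z m hσ

/-- polyline from `z` with displacements `D` -/
def pl : V d → List (Fin d × ℤ) → List (V d)
  | z, [] => [z]
  | z, (m, k) :: D => run z m k.sign k.natAbs ++ pl (z + Pi.single m k) D

/-- end point of a polyline -/
def ep : V d → List (Fin d × ℤ) → V d
  | z, [] => z
  | z, (m, k) :: D => ep (z + Pi.single m k) D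

lemma pl_cons (z : V d) (m : Fin d) (k : ℤ) (D : List (Fin d × ℤ)) :
    pl z ((m, k) :: D) = run z m k.sign k.natAbs ++ pl (z + Pi.single m k) D := rfl

lemma pl_ne_nil : ∀ (D : List (Fin d × ℤ)) (z : V d), pl z D ≠ []
  | [], z => by simp [pl]
  | (m, k) :: D, z => by
    rw [pl_cons]
    intro h
    exact pl_ne_nil D _ (List.append_eq_nil_iff.1 h).2

lemma pl_head : ∀ (D : List (Fin d × ℤ)) (z : V d), (pl z D).head? = some z
  | [], z => by simp [pl]
  | (m, k) :: D, z => by
    rw [pl_cons]
    rcases Nat.eq_zero_or_pos k.natAbs with h | h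
    · have hk : k = 0 := Int.natAbs_eq_zero.1 h
      subst hk
      have hz : z + Pi.single m (0 : ℤ) = z := by simp
      rw [hz]
      simpa [run] using pl_head D z
    · obtain ⟨j, hj⟩ : ∃ j, k.natAbs = j + 1 := ⟨k.natAbs - 1, by omega⟩
      rw [hj, run_succ]; rfl

lemma pl_last : ∀ (D : List (Fin d × ℤ)) (z : V d), (pl z D).getLast? = some (ep z D)
  | [], z => by simp [pl, ep]
  | (m, k) :: D, z => by
    rw [pl_cons, List.getLast?_append, pl_last D]
    rfl

lemma pl_chain : ∀ (D : List (Fin d × ℤ)) (z : V d), (pl z D).IsChain LatAdj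
  | [], z => by simp [pl]
  | (m, k) :: D, z => by
    rw [pl_cons]
    rcases lt_trichotomy k 0 with h | h | h
    · rw [Int.sign_eq_neg_one_of_neg h]
      apply run_chain z m (Or.inr rfl) _ _ (pl_chain D _)
      rw [pl_head]
      congr 3
      omega
    · subst h
      have hz : z + Pi.single m (0 : ℤ) = z := by simp
      rw [hz]
      simpa [run] using pl_chain D z
    · rw [Int.sign_eq_one_of_pos h]
      apply run_chain z m (Or.inl rfl) _ _ (pl_chain D _)
      rw [pl_head]
      congr 3
      omega

/-- a vertex of a polyline: on the first segment or on the rest -/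
lemma mem_pl_cons {z v : V d} {m : Fin d} {k : ℤ} {D : List (Fin d × ℤ)}
    (h : v ∈ pl z ((m, k) :: D)) :
    (∃ t : ℤ, ((0 ≤ t ∧ t ≤ k) ∨ (k ≤ t ∧ t ≤ 0)) ∧ v = z + Pi.single m t) ∨
      v ∈ pl (z + Pi.single m k) D := by
  rw [pl_cons, List.mem_append] at h
  rcases h with h | h
  · left
    obtain ⟨j, hj, rfl⟩ := mem_run.1 h
    refine ⟨k.sign * j, ?_, rfl⟩
    rcases lt_trichotomy k 0 with h | h | h
    · rw [Int.sign_eq_neg_one_of_neg h]; right; constructor <;> omega
    · subst h; simp at hj
    · rw [Int.sign_eq_one_of_pos h]; left; constructor <;> omega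
  · exact Or.inr h

lemma mem_pl_nil {z v : V d} (h : v ∈ pl z []) : v = z := by simpa [pl] using h

/-- number of vertices -/
lemma length_pl : ∀ (D : List (Fin d × ℤ)) (z : V d),
    (pl z D).length = (D.map fun q => q.2.natAbs).sum + 1
  | [], z => by simp [pl]
  | (m, k) :: D, z => by
    rw [pl_cons, List.length_append, length_run, length_pl D, List.map_cons, List.sum_cons]
    ring

/-- concatenation of displacement lists -/
lemma mem_pl_append : ∀ (D D' : List (Fin d × ℤ)) (z : V d) {v : V d}, v ∈ pl z (D ++ D') →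
    v ∈ pl z D ∨ v ∈ pl (ep z D) D'
  | [], D', z, v => by
    intro h
    exact Or.inr h
  | (m, k) :: D, D', z, v => by
    intro h
    rw [List.cons_append, pl_cons, List.mem_append] at h
    rcases h with h | h
    · left; rw [pl_cons, List.mem_append]; exact Or.inl h
    · rcases mem_pl_append D D' _ h with h | h
      · left; rw [pl_cons, List.mem_append]; exact Or.inr h
      · exact Or.inr h

lemma ep_append : ∀ (D D' : List (Fin d × ℤ)) (z : V d), ep z (D ++ D') = ep (ep z D) D'
  | [], _, _ => rfl
  | (m, k) :: D, D', z => by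
    rw [List.cons_append]
    exact ep_append D D' _

/-- list of pairs (vertex, radius) -/
def wire (r : V d → ℕ) (l : List (V d)) : List (V d × ℕ) := l.map fun v => (v, r v)

lemma wire_head {r : V d → ℕ} {l : List (V d)} {z : V d} (h : l.head? = some z) :
    (wire r l).head? = some (z, r z) := by
  rw [wire, List.head?_map, h]; rfl

lemma wire_last {r : V d → ℕ} {l : List (V d)} {z : V d} (h : l.getLast? = some z) :
    (wire r l).getLast? = some (z, r z) := by
  rw [wire, List.getLast?_map, h]; rfl

lemma mem_wire {r : V d → ℕ} {l : List (V d)} {q : V d × ℕ} :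
    q ∈ wire r l ↔ q.1 ∈ l ∧ q.2 = r q.1 := by
  rw [wire, List.mem_map]
  constructor
  · rintro ⟨v, hv, rfl⟩; exact ⟨hv, rfl⟩
  · rintro ⟨h1, h2⟩; exact ⟨q.1, h1, by rw [← h2]⟩

lemma wire_chain {r : V d → ℕ} {l : List (V d)} (hl : l.IsChain LatAdj)
    (hr : ∀ a ∈ l, ∀ b ∈ l, LatAdj a b → r a ≤ 2 * r b ∧ r b ≤ 2 * r a) :
    (wire r l).IsChain (fun a b => (a.1 = b.1 ∨ LatAdj a.1 b.1) ∧ a.2 ≤ 2 * b.2 ∧ b.2 ≤ 2 * a.2) := by
  rw [wire, List.isChain_map]
  induction l with
  | nil => exact List.IsChain.nil
  | cons a t ih =>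
    cases t with
    | nil => exact List.IsChain.singleton _
    | cons b t =>
      rw [List.isChain_cons_cons] at hl ⊢
      refine ⟨⟨Or.inr hl.1, hr a (by simp) b (by simp) hl.1⟩, ?_⟩
      exact ih hl.2 fun x hx y hy hxy => hr x (List.mem_cons_of_mem _ hx) y
        (List.mem_cons_of_mem _ hy) hxy

/-- LOOP ERASURE: a chain can be replaced by a chain without repetition with the same ends -/
theorem exists_nodup_chain {α : Type*} (R : α → α → Prop) : ∀ (N : ℕ) (w : List α), w.length ≤ N →
    w.IsChain R → ∀ a b, w.head? = some a → w.getLast? = some b →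
    ∃ w' : List α, w'.Nodup ∧ w'.IsChain R ∧ w'.head? = some a ∧ w'.getLast? = some b ∧
      w' ⊆ w := by
  classical
  intro N
  induction N with
  | zero =>
    intro w hw _ a b ha _
    have : w = [] := List.length_eq_zero_iff.1 (Nat.le_zero.1 hw)
    rw [this] at ha; simp at ha
  | succ N ih =>
    intro w hw hc a b ha hb
    match w, hw, hc, ha, hb with
    | [], _, _, ha, _ => simp at ha
    | [x], _, _, ha, hb =>
      have h1 : x = a := by simpa using ha
      have h2 : x = b := by simpa using hb
      subst h1; subst h2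
      exact ⟨[x], by simp, by simp, by simp, by simp, by simp⟩
    | x :: y :: t, hw, hc, ha, hb =>
      have h1 : x = a := by simpa using ha
      subst h1
      rw [List.isChain_cons_cons] at hc
      have hb' : (y :: t).getLast? = some b := by simpa using hb
      have hlen : (y :: t).length ≤ N := by simpa using hw
      obtain ⟨w', hn, hc', hh, hl, hsub⟩ := ih (y :: t) hlen hc.2 y b rfl hb'
      by_cases hx : x ∈ w'
      · -- restart from the occurrence of `x`
        obtain ⟨u, v, huv⟩ := List.append_of_mem hx
        refine ⟨x :: v, ?_, ?_, rfl, ?_, ?_⟩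
        · rw [huv] at hn
          exact (List.nodup_append.1 hn).2.1
        · rw [huv] at hc'
          exact List.IsChain.right_of_append hc'
        · rw [huv, List.getLast?_append] at hl
          have : (x :: v).getLast?.isSome := by simp
          obtain ⟨c, hcc⟩ := Option.isSome_iff_exists.1 this
          rw [hcc] at hl ⊢
          simpa using hl
        · intro z hz
          apply List.mem_cons_of_mem
          apply hsub
          rw [huv]
          exact List.mem_append_right _ hz
      · refine ⟨x :: w', List.nodup_cons.2 ⟨hx, hn⟩, ?_, rfl, ?_, ?_⟩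
        · cases w' with
          | nil => simp
          | cons c v =>
            have : c = y := by simpa using hh
            subst this
            exact List.isChain_cons_cons.2 ⟨hc.1, hc'⟩
        · cases w' with
          | nil => simp at hh
          | cons c v => simpa using hl
        · intro z hz
          rcases List.mem_cons.1 hz with rfl | hz
          · simp
          · exact List.mem_cons_of_mem _ (hsub hz)

/-- the road along a wire: connection between the hubs inside the union of the balls, with a number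
of steps at most the sum of the costs over the finite set of the pairs -/
theorem road_of_wire {κ : Kind} {p : unitInterval} (RS : RoadSys κ d p) [DecidableEq (V d × ℕ)]
    {ω : El d → Bool} {w : List (V d × ℕ)}
    (hc : w.IsChain (fun a b => (a.1 = b.1 ∨ LatAdj a.1 b.1) ∧ a.2 ≤ 2 * b.2 ∧ b.2 ≤ 2 * a.2))
    (hr : ∀ a ∈ w, 1 ≤ a.2 ∧ ω ∈ RS.reg a.1 a.2) {a b : V d × ℕ} (ha : w.head? = some a)
    (hb : w.getLast? = some b) :
    Rw κ ω {v | ∃ q ∈ w, v ∈ Bx q.1 q.2} (RS.hub a.1 a.2 ω) (RS.hub b.1 b.2 ω)
      (∑ q ∈ w.toFinset, RS.lam q.1 q.2 ω) := by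
  obtain ⟨w', hn, hc', hh, hl, hsub⟩ := exists_nodup_chain _ w.length w le_rfl hc a b ha hb
  obtain ⟨l, h1, h2, h3, h4, h5⟩ := RS.path ω w' hc' (fun q hq => hr q (hsub hq)) a b hh hl
  refine ⟨l, h1, h2, h3, ?_, ?_⟩
  · intro v hv
    obtain ⟨q, hq, hv'⟩ := h4 v hv
    exact ⟨q, hsub hq, hv'⟩
  · have h6 : (w'.map fun q => RS.lam q.1 q.2 ω).sum = ∑ q ∈ w'.toFinset, RS.lam q.1 q.2 ω :=
      (List.sum_toFinset _ hn).symm
    have h7 : ∑ q ∈ w'.toFinset, RS.lam q.1 q.2 ω ≤ ∑ q ∈ w.toFinset, RS.lam q.1 q.2 ω := by
      apply Finset.sum_le_sum_of_subset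
      intro q hq
      rw [List.mem_toFinset] at hq ⊢
      exact hsub hq
    omega

end Pool.Agent.H74.HG
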