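import Pool.Agent.H74.HG.Poly
import Pool.Agent.H83.HG.Num
import Pool.Agent.H94.BM.Walks

/-!
# HG module Top: the lanes from the top of a tree to the end points of the module (one frame)

Frame coordinates in `V (n + 2)`: coordinate `0` = height, the others lateral. `P`: port at the top of the tree,
`c`: centre of the big cube, target `A = c + 2 σ L e_m`, `σ = 1` if `m = 0`. The lane: a polyline with first part
(`headD`) from `P` to `c + σ L e_m` and last segment from there to `A - 2 r₂ σ e_m`; radii `lr`: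
`max r₂ (min (dist to A / 16) ρ)`, i.e. `ρ` on the first part. Half ball: `hb`, the box of radius `4 r₂` around
`A - 4 r₂ σ e_m`, which has `A` at the centre of a face.
-/

open MeasureTheory Filter Topology
open Pool.Agent.H17.IIC Pool.Agent.H41.QC Pool.Agent.H47.GM Pool.Agent.H17.QA

namespace Pool.Agent.H74.HG

section general

variable {d : ℕ}

/-- displacements carrying the coordinates in `l` from those of `z` to those of `y` -/
def fixd (z y : V d) (l : List (Fin d)) : List (Fin d × ℤ) := l.map fun m => (m, y m - z m)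

lemma fixd_cons (z y : V d) (m : Fin d) (l : List (Fin d)) :
    fixd z y (m :: l) = (m, y m - z m) :: fixd z y l := rfl

lemma ep_fixd : ∀ (l : List (Fin d)) (x z y : V d), l.Nodup → (∀ m ∈ l, x m = z m) → ∀ m,
    ep x (fixd z y l) m = if m ∈ l then y m else x m
  | [], x, z, y, _, _, m => by simp [fixd, ep]
  | k :: l, x, z, y, hn, hx, m => by
    rw [fixd_cons]
    have hk : k ∉ l := (List.nodup_cons.1 hn).1
    have h1 := ep_fixd l (x + Pi.single k (y k - z k)) z y (List.nodup_cons.1 hn).2 (by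
      intro j hj
      have : j ≠ k := by rintro rfl; exact hk hj
      rw [Pi.add_apply, Pi.single_eq_of_ne this, add_zero]
      exact hx j (List.mem_cons_of_mem _ hj)) m
    show ep (x + Pi.single k (y k - z k)) (fixd z y l) m = _
    rw [h1]
    by_cases hm : m ∈ l
    · rw [if_pos hm, if_pos (List.mem_cons_of_mem _ hm)]
    · rw [if_neg hm]
      by_cases hmk : m = k
      · subst hmk
        rw [if_pos (by simp), Pi.add_apply, Pi.single_eq_same, hx m (by simp)]
        ring
      · rw [if_neg (by simp [hm, hmk]), Pi.add_apply, Pi.single_eq_of_ne hmk, add_zero]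

lemma mem_pl_fixd : ∀ (l : List (Fin d)) (x z y : V d), l.Nodup → (∀ m ∈ l, x m = z m) →
    ∀ v ∈ pl x (fixd z y l), ∀ m, (m ∉ l → v m = x m) ∧
      (m ∈ l → (z m ≤ v m ∧ v m ≤ y m) ∨ (y m ≤ v m ∧ v m ≤ z m))
  | [], x, z, y, _, _, v, hv, m => by
    have : v = x := mem_pl_nil hv
    subst this
    simp
  | k :: l, x, z, y, hn, hx, v, hv, m => by
    rw [fixd_cons] at hv
    have hk : k ∉ l := (List.nodup_cons.1 hn).1
    have hx' : ∀ j ∈ l, (x + Pi.single k (y k - z k) : V d) j = z j := by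
      intro j hj
      have : j ≠ k := by rintro rfl; exact hk hj
      rw [Pi.add_apply, Pi.single_eq_of_ne this, add_zero]
      exact hx j (List.mem_cons_of_mem _ hj)
    rcases mem_pl_cons hv with ⟨t, ht, rfl⟩ | hv
    · by_cases hmk : m = k
      · subst hmk
        refine ⟨fun h => absurd (by simp) h, fun _ => ?_⟩
        rw [Pi.add_apply, Pi.single_eq_same, hx m (by simp)]
        omega
      · rw [Pi.add_apply, Pi.single_eq_of_ne hmk, add_zero]
        refine ⟨fun _ => rfl, fun h => ?_⟩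
        rw [hx m h]
        omega
    · have h1 := mem_pl_fixd l _ z y (List.nodup_cons.1 hn).2 hx' v hv m
      by_cases hmk : m = k
      · subst hmk
        refine ⟨fun h => absurd (by simp) h, fun _ => ?_⟩
        rw [h1.1 hk, Pi.add_apply, Pi.single_eq_same, hx m (by simp)]
        omega
      · refine ⟨fun h => ?_, fun h => ?_⟩
        · rw [h1.1 (fun h' => h (List.mem_cons_of_mem _ h')), Pi.add_apply,
            Pi.single_eq_of_ne hmk, add_zero]
        · exact h1.2 (by simpa [hmk] using h)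

lemma sum_fixd (z y : V d) (B : ℕ) (hB : ∀ m, (y m - z m).natAbs ≤ B) (l : List (Fin d)) :
    ((fixd z y l).map fun q => q.2.natAbs).sum ≤ l.length * B := by
  induction l with
  | nil => simp [fixd]
  | cons k l ih =>
    rw [fixd_cons, List.map_cons, List.sum_cons, List.length_cons]
    have := hB k
    nlinarith

/-- sup distance -/
def sd (v A : V d) : ℕ := Finset.univ.sup fun i => (v i - A i).natAbs

lemma le_sd (v A : V d) (i : Fin d) : (v i - A i).natAbs ≤ sd v A :=
  Finset.le_sup (f := fun i => (v i - A i).natAbs) (Finset.mem_univ i)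

lemma sd_le {v A : V d} {k : ℕ} (h : ∀ i, (v i - A i).natAbs ≤ k) : sd v A ≤ k :=
  Finset.sup_le fun i _ => h i

lemma adj_coord {a b : V d} (h : LatAdj a b) (i : Fin d) : |a i - b i| ≤ 1 := by
  obtain ⟨⟨m, s⟩, rfl⟩ := h
  by_cases hi : i = m
  · subst hi
    cases s <;> simp [stepVec]
  · cases s <;> simp [stepVec, hi]

lemma sd_adj {a b : V d} (h : LatAdj a b) (A : V d) : sd a A ≤ sd b A + 1 := by
  apply sd_le
  intro i
  have h1 := abs_le.1 (adj_coord h i)
  have h2 := le_sd b A i
  omega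

/-- radius function of a lane -/
def lr (r₂ ρ : ℕ) (A v : V d) : ℕ := max r₂ (min (sd v A / 16) ρ)

lemma lr_adj {r₂ ρ : ℕ} (h1 : 1 ≤ r₂) {a b : V d} (h : LatAdj a b) (A : V d) :
    lr r₂ ρ A a ≤ 2 * lr r₂ ρ A b := by
  have := sd_adj h A
  unfold lr
  omega

lemma lr_ge {r₂ ρ : ℕ} (A v : V d) : r₂ ≤ lr r₂ ρ A v := le_max_left _ _

lemma lr_le {r₂ ρ : ℕ} (h : r₂ ≤ ρ) (A v : V d) : lr r₂ ρ A v ≤ ρ := by
  unfold lr; omega

lemma lr_far {r₂ ρ : ℕ} (h : r₂ ≤ ρ) {A v : V d} (h' : 16 * ρ ≤ sd v A) : lr r₂ ρ A v = ρ := by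
  unfold lr; omega

/-- transfer of a connection between two configurations agreeing on the region -/
lemma rw_on {κ : Kind} {ω ω' : El d → Bool} {U : Set (V d)} {x y : V d} {N : ℕ}
    (h : ∀ e ∈ InE U, ω e = true → ω' e = true) (hr : Rw κ ω U x y N) : Rw κ ω' U x y N := by
  obtain ⟨l, ⟨h1, h2, h3⟩, h4, h5, h6, h7⟩ := hr
  refine ⟨l, ⟨h1, h2, ?_⟩, h4, h5, h6, h7⟩
  cases κ with
  | bond =>
    have h3' : l.IsChain fun a b => ω s(a, b) = true := h3
    show l.IsChain fun a b => ω' s(a, b) = true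
    clear h1 h2 h3 h4 h5 h7
    induction l with
    | nil => exact List.IsChain.nil
    | cons a t ih =>
      cases t with
      | nil => exact List.IsChain.singleton _
      | cons b t =>
        rw [List.isChain_cons_cons] at h3' ⊢
        refine ⟨h _ ?_ h3'.1, ih (fun v hv => h6 v (List.mem_cons_of_mem _ hv)) h3'.2⟩
        intro v hv
        rcases Sym2.mem_iff.1 hv with rfl | rfl
        · exact h6 _ (by simp)
        · exact h6 _ (by simp)
  | site =>
    intro a ha
    apply h _ _ (h3 a ha)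
    intro v hv
    rcases Sym2.mem_iff.1 hv with rfl | rfl
    · exact h6 _ ha
    · exact h6 _ ha

/-- transport of a connection by an automorphism -/
lemma rw_tr {κ : Kind} {φ : V d ≃ V d} (hφ : IsAut φ) {ω : El d → Bool} {U : Set (V d)} {x y : V d}
    {N : ℕ} (hr : Rw κ (tr φ ω) U x y N) : Rw κ ω (φ '' U) (φ x) (φ y) N := by
  obtain ⟨l, ⟨h1, h2, h3⟩, h4, h5, h6, h7⟩ := hr
  refine ⟨l.map φ, ⟨h1.map φ.injective, ?_, ?_⟩, ?_, ?_, ?_, ?_⟩
  · rw [List.isChain_map]
    exact List.IsChain.imp (fun a b h => (hφ.adj a b).2 h) h2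
  · cases κ with
    | bond =>
      show (l.map φ).IsChain fun a b => ω s(a, b) = true
      rw [List.isChain_map]
      exact h3
    | site =>
      intro a ha
      obtain ⟨b, hb, rfl⟩ := List.mem_map.1 ha
      exact h3 b hb
  · rw [List.head?_map, h4]; rfl
  · rw [List.getLast?_map, h5]; rfl
  · intro v hv
    obtain ⟨b, hb, rfl⟩ := List.mem_map.1 hv
    exact ⟨b, h6 b hb, rfl⟩
  · rw [List.length_map]; exact h7

end general

variable {n : ℕ}

/-- the lateral directions -/
def latF (n : ℕ) : List (Fin (n + 2)) := (List.finRange (n + 1)).map Fin.succ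

lemma mem_latF (m : Fin (n + 2)) : m ∈ latF n ↔ m ≠ 0 := by
  rw [latF, List.mem_map]
  constructor
  · rintro ⟨j, _, rfl⟩; exact Fin.succ_ne_zero j
  · intro h
    obtain ⟨j, rfl⟩ := Fin.exists_succ_eq.2 h
    exact ⟨j, List.mem_finRange j, rfl⟩

lemma latF_nodup : (latF n).Nodup :=
  (List.nodup_finRange _).map (Fin.succ_injective _)

lemma latF_length : (latF n).length = n + 1 := by simp [latF]

/-- displacements of the first part of a lane -/
def headD (P c : V (n + 2)) (L S : ℤ) (m : Fin (n + 2)) (σ : ℤ) : List (Fin (n + 2) × ℤ) :=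
  if m = 0 then (0, c 0 + σ * L - P 0) :: fixd P c (latF n)
  else (0, S) :: (m, c m + σ * L - P m) ::
    (fixd P c ((latF n).filter (· ≠ m)) ++ [(0, c 0 - P 0 - S)])

/-- the lane -/
def lane (P c : V (n + 2)) (L S : ℤ) (r₂ : ℕ) (m : Fin (n + 2)) (σ : ℤ) : List (V (n + 2)) :=
  pl P (headD P c L S m σ ++ [(m, σ * (L - 2 * r₂))])

/-- the target -/
def tgt (c : V (n + 2)) (L : ℤ) (m : Fin (n + 2)) (σ : ℤ) : V (n + 2) :=
  c + Pi.single m (σ * (2 * L))

/-- centre of the half ball -/
def hbc (c : V (n + 2)) (L : ℤ) (r₂ : ℕ) (m : Fin (n + 2)) (σ : ℤ) : V (n + 2) :=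
  c + Pi.single m (σ * (2 * L - 4 * r₂))

/-- hypotheses on the parameters -/
structure TopH (P c : V (n + 2)) (L S : ℤ) (r₂ ρ : ℕ) (m : Fin (n + 2)) (σ : ℤ) : Prop where
  hr₂ : 1 ≤ r₂
  hρ : r₂ ≤ ρ
  hS : 16 * (ρ : ℤ) ≤ S
  hc : ∀ i, |c i| ≤ S
  hP : ∀ i, |P i| + 4 * S ≤ L
  hP0 : 0 ≤ P 0
  hσ : σ = 1 ∨ σ = -1
  hm : m = 0 → σ = 1

section lane

variable {P c : V (n + 2)} {L S : ℤ} {r₂ ρ : ℕ} {m : Fin (n + 2)} {σ : ℤ}

lemma single_coord (m i : Fin (n + 2)) (k : ℤ) : (Pi.single m k : V (n + 2)) i = if i = m then k else 0 := by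
  by_cases h : i = m
  · subst h; simp
  · rw [Pi.single_eq_of_ne h, if_neg h]

lemma ep_headD (P c : V (n + 2)) (L S : ℤ) (m : Fin (n + 2)) (σ : ℤ) :
    ep P (headD P c L S m σ) = c + Pi.single m (σ * L) := by
  unfold headD
  split_ifs with hm
  · subst hm
    show ep (P + Pi.single 0 (c 0 + σ * L - P 0)) (fixd P c (latF n)) = _
    funext i
    rw [ep_fixd _ _ _ _ latF_nodup (by
      intro j hj
      rw [Pi.add_apply, Pi.single_eq_of_ne ((mem_latF j).1 hj), add_zero])]
    rw [Pi.add_apply, Pi.add_apply, single_coord, single_coord]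
    by_cases hi : i = 0
    · subst hi
      rw [if_neg (by simp [mem_latF]), if_pos rfl, if_pos rfl]; ring
    · rw [if_pos ((mem_latF i).2 hi), if_neg hi, add_zero]
  · show ep (P + Pi.single 0 S + Pi.single m (c m + σ * L - P m))
      (fixd P c ((latF n).filter (· ≠ m)) ++ [(0, c 0 - P 0 - S)]) = _
    rw [ep_append]
    show ep (P + Pi.single 0 S + Pi.single m (c m + σ * L - P m))
      (fixd P c ((latF n).filter (· ≠ m))) + Pi.single 0 (c 0 - P 0 - S) = _
    funext i
    rw [Pi.add_apply, ep_fixd _ _ _ _ (latF_nodup.filter _) (by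
      intro j hj
      rw [List.mem_filter] at hj
      have hj2 : j ≠ m := by simpa using hj.2
      rw [Pi.add_apply, Pi.add_apply, Pi.single_eq_of_ne ((mem_latF j).1 hj.1),
        Pi.single_eq_of_ne hj2, add_zero, add_zero])]
    rw [Pi.add_apply, Pi.add_apply, Pi.add_apply, single_coord, single_coord, single_coord,
      single_coord]
    have hmem : i ∈ (latF n).filter (· ≠ m) ↔ i ≠ 0 ∧ i ≠ m := by
      rw [List.mem_filter, mem_latF]; simp
    by_cases hi : i = 0
    · subst hi
      rw [if_neg (by rw [hmem]; simp), if_pos rfl, if_neg (Ne.symm hm), if_pos rfl,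
        if_neg (Ne.symm hm)]
      ring
    · by_cases him : i = m
      · subst him
        rw [if_neg (by rw [hmem]; simp), if_neg hi, if_pos rfl, if_neg hi, if_pos rfl]
        ring
      · rw [if_pos (hmem.2 ⟨hi, him⟩), if_neg hi, if_neg him]

/-- the vertices of the first part -/
lemma mem_head (h : TopH P c L S r₂ ρ m σ) {v : V (n + 2)} (hv : v ∈ pl P (headD P c L S m σ)) :
    (∀ i, |v i - c i| ≤ L) ∧ σ * P m ≤ σ * v m ∧
      ((P 0 ≤ v 0 ∧ ∀ i, i ≠ 0 → v i = P i) ∨ P 0 + S ≤ v 0 ∨ L ≤ σ * (v m - c m)) := by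
  have hS0 : 0 ≤ S := (abs_nonneg _).trans (h.hc 0)
  have hc := fun i => abs_le.1 (h.hc i)
  have hP : ∀ i, -(L - 4 * S) ≤ P i ∧ P i ≤ L - 4 * S := fun i => by
    have := h.hP i
    exact abs_le.1 (by linarith)
  have hP0 := h.hP0
  unfold headD at hv
  split_ifs at hv with hm
  · subst hm
    have hσ := h.hm rfl
    subst hσ
    rcases mem_pl_cons hv with ⟨t, ht, rfl⟩ | hv
    · have h0 := hc 0
      have h1 := hP 0
      have ht' : 0 ≤ t ∧ t ≤ c 0 + 1 * L - P 0 := by omega
      have hv0 : (P + Pi.single 0 t : V (n + 2)) 0 = P 0 + t := by simp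
      refine ⟨fun i => ?_, ?_, Or.inl ⟨?_, fun i hi => ?_⟩⟩
      · by_cases hi : i = 0
        · subst hi
          rw [hv0, abs_le]
          constructor <;> omega
        · rw [Pi.add_apply, Pi.single_eq_of_ne hi, abs_le]
          have := hc i
          have := hP i
          constructor <;> omega
      · rw [hv0]; omega
      · rw [hv0]; omega
      · rw [Pi.add_apply, Pi.single_eq_of_ne hi, add_zero]
    · have h2 := mem_pl_fixd _ _ _ _ latF_nodup (by
        intro j hj
        rw [Pi.add_apply, Pi.single_eq_of_ne ((mem_latF j).1 hj), add_zero]) v hv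
      have h0 := hc 0
      have h1 := hP 0
      have hv0 : v 0 = c 0 + 1 * L := by
        rw [(h2 0).1 (by simp [mem_latF]), Pi.add_apply, Pi.single_eq_same]; ring
      refine ⟨fun i => ?_, ?_, Or.inr (Or.inl ?_)⟩
      · by_cases hi : i = 0
        · subst hi
          rw [hv0, abs_le]
          constructor <;> omega
        · have h3 := (h2 i).2 ((mem_latF i).2 hi)
          have := hc i
          have := hP i
          rw [abs_le]
          constructor <;> omega
      · rw [hv0]; omega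
      · rw [hv0]; omega
  · have hcm := hc m
    have hPm := hP m
    have hσL : σ * L = L ∨ σ * L = -L := by
      rcases h.hσ with h | h <;> rw [h] <;> simp
    have hc0 := hc 0
    have hp0 := hP 0
    rcases mem_pl_cons hv with ⟨t, ht, rfl⟩ | hv
    · have ht' : 0 ≤ t ∧ t ≤ S := by omega
      have hv0 : (P + Pi.single 0 t : V (n + 2)) 0 = P 0 + t := by simp
      have hvm : (P + Pi.single 0 t : V (n + 2)) m = P m := by
        rw [Pi.add_apply, Pi.single_eq_of_ne hm, add_zero]
      refine ⟨fun i => ?_, ?_, Or.inl ⟨?_, fun i hi => ?_⟩⟩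
      · by_cases hi : i = 0
        · subst hi
          rw [hv0, abs_le]
          constructor <;> omega
        · rw [Pi.add_apply, Pi.single_eq_of_ne hi, abs_le]
          have := hc i
          have := hP i
          constructor <;> omega
      · rw [hvm]
      · rw [hv0]; omega
      · rw [Pi.add_apply, Pi.single_eq_of_ne hi, add_zero]
    rcases mem_pl_cons hv with ⟨t, ht, rfl⟩ | hv
    · have hv0 : (P + Pi.single 0 S + Pi.single m t : V (n + 2)) 0 = P 0 + S := by
        rw [Pi.add_apply, Pi.add_apply, Pi.single_eq_same, Pi.single_eq_of_ne (Ne.symm hm), add_zero]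
      have hvm : (P + Pi.single 0 S + Pi.single m t : V (n + 2)) m = P m + t := by
        rw [Pi.add_apply, Pi.add_apply, Pi.single_eq_same, Pi.single_eq_of_ne hm, add_zero]
      refine ⟨fun i => ?_, ?_, Or.inr (Or.inl ?_)⟩
      · by_cases hi : i = 0
        · subst hi
          rw [hv0, abs_le]
          constructor <;> omega
        · by_cases him : i = m
          · subst him
            rw [hvm, abs_le]
            constructor <;> omega
          · rw [Pi.add_apply, Pi.add_apply, Pi.single_eq_of_ne hi, Pi.single_eq_of_ne him, abs_le]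
            have := hc i
            have := hP i
            constructor <;> omega
      · rw [hvm]
        rcases h.hσ with h | h
        · subst h; omega
        · subst h; omega
      · rw [hv0]
    · rcases mem_pl_append _ _ _ hv with hv | hv
      · have h2 := mem_pl_fixd _ _ _ _ (latF_nodup.filter _) (by
          intro j hj
          rw [List.mem_filter] at hj
          have hj2 : j ≠ m := by simpa using hj.2
          rw [Pi.add_apply, Pi.add_apply, Pi.single_eq_of_ne ((mem_latF j).1 hj.1),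
            Pi.single_eq_of_ne hj2, add_zero, add_zero]) v hv
        have hmem : ∀ i, i ∈ (latF n).filter (· ≠ m) ↔ i ≠ 0 ∧ i ≠ m := by
          intro i
          rw [List.mem_filter, mem_latF]; simp
        have hv0 : v 0 = P 0 + S := by
          rw [(h2 0).1 (by rw [hmem]; simp), Pi.add_apply, Pi.add_apply, Pi.single_eq_same,
            Pi.single_eq_of_ne (Ne.symm hm), add_zero]
        have hvm : v m = c m + σ * L := by
          rw [(h2 m).1 (by rw [hmem]; simp), Pi.add_apply, Pi.add_apply, Pi.single_eq_same,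
            Pi.single_eq_of_ne hm, add_zero]; ring
        refine ⟨fun i => ?_, ?_, Or.inr (Or.inl ?_)⟩
        · by_cases hi : i = 0
          · subst hi
            rw [hv0, abs_le]
            constructor <;> omega
          · by_cases him : i = m
            · subst him
              rw [hvm, abs_le]
              constructor <;> omega
            · have h3 := (h2 i).2 ((hmem i).2 ⟨hi, him⟩)
              have := hc i
              have := hP i
              rw [abs_le]
              constructor <;> omega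
        · rw [hvm]
          rcases h.hσ with h | h
          · subst h; omega
          · subst h; omega
        · rw [hv0]
      · -- descent to the height of the centre
        have hz : ∀ i, ep (P + Pi.single 0 S + Pi.single m (c m + σ * L - P m))
            (fixd P c ((latF n).filter (· ≠ m))) i =
            if i = 0 then P 0 + S else if i = m then c m + σ * L else c i := by
          intro i
          rw [ep_fixd _ _ _ _ (latF_nodup.filter _) (by
            intro j hj
            rw [List.mem_filter] at hj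
            have hj2 : j ≠ m := by simpa using hj.2
            rw [Pi.add_apply, Pi.add_apply, Pi.single_eq_of_ne ((mem_latF j).1 hj.1),
              Pi.single_eq_of_ne hj2, add_zero, add_zero])]
          rw [Pi.add_apply, Pi.add_apply, single_coord, single_coord]
          have hmem : i ∈ (latF n).filter (· ≠ m) ↔ i ≠ 0 ∧ i ≠ m := by
            rw [List.mem_filter, mem_latF]; simp
          by_cases hi : i = 0
          · subst hi
            rw [if_neg (by rw [hmem]; simp), if_pos rfl, if_neg (Ne.symm hm), if_pos rfl]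
            ring
          · by_cases him : i = m
            · subst him
              rw [if_neg (by rw [hmem]; simp), if_neg hi, if_pos rfl, if_neg hi, if_pos rfl]
              ring
            · rw [if_pos (hmem.2 ⟨hi, him⟩), if_neg hi, if_neg him]
        obtain ⟨z, hze⟩ : ∃ z, z = ep (P + Pi.single 0 S + Pi.single m (c m + σ * L - P m))
            (fixd P c ((latF n).filter (· ≠ m))) := ⟨_, rfl⟩
        rw [← hze] at hv hz
        have hv' : ∃ t : ℤ, c 0 - P 0 - S ≤ t ∧ t ≤ 0 ∧ v = z + Pi.single 0 t := by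
          rcases mem_pl_cons hv with ⟨t, ht, rfl⟩ | hv
          · exact ⟨t, by omega, by omega, rfl⟩
          · exact ⟨c 0 - P 0 - S, le_rfl, by omega, mem_pl_nil hv⟩
        obtain ⟨t, ht1, ht2, rfl⟩ := hv'
        have hv0 : (z + Pi.single 0 t : V (n + 2)) 0 = P 0 + S + t := by
          rw [Pi.add_apply, Pi.single_eq_same, hz, if_pos rfl]
        have hvm : (z + Pi.single 0 t : V (n + 2)) m = c m + σ * L := by
          rw [Pi.add_apply, Pi.single_eq_of_ne hm, hz, if_neg hm, if_pos rfl, add_zero]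
        refine ⟨fun i => ?_, ?_, Or.inr (Or.inr ?_)⟩
        · by_cases hi : i = 0
          · subst hi
            rw [hv0, abs_le]
            constructor <;> omega
          · by_cases him : i = m
            · subst him
              rw [hvm, abs_le]
              constructor <;> omega
            · rw [Pi.add_apply, Pi.single_eq_of_ne hi, hz, if_neg hi, if_neg him, abs_le]
              constructor <;> omega
        · rw [hvm]
          rcases h.hσ with h | h
          · subst h; omega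
          · subst h; omega
        · rw [hvm]
          rcases h.hσ with h | h
          · subst h; omega
          · subst h; omega

lemma sg_cases (h : TopH P c L S r₂ ρ m σ) (k : ℤ) : (σ = 1 ∧ σ * k = k) ∨ (σ = -1 ∧ σ * k = -k) := by
  rcases h.hσ with h | h
  · left; rw [h]; simp
  · right; rw [h]; simp

lemma rho_le (h : TopH P c L S r₂ ρ m σ) : 64 * (ρ : ℤ) ≤ L ∧ (1 : ℤ) ≤ r₂ ∧ (r₂ : ℤ) ≤ ρ ∧
    4 * S ≤ L := by
  have h1 := h.hS
  have h2 := h.hP 0
  have h3 := abs_nonneg (P 0)
  have h4 := h.hr₂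
  have h5 := h.hρ
  refine ⟨by linarith, by exact_mod_cast h4, by exact_mod_cast h5, by linarith⟩

/-- the vertices of the last segment -/
lemma mem_tail (h : TopH P c L S r₂ ρ m σ) {v : V (n + 2)}
    (hv : v ∈ pl (c + Pi.single m (σ * L)) [(m, σ * (L - 2 * r₂))]) :
    ∃ t : ℕ, 2 * r₂ ≤ t ∧ (t : ℤ) ≤ L ∧ v = tgt c L m σ - Pi.single m (σ * t) := by
  obtain ⟨g1, g2, g3, g4⟩ := rho_le h
  have key : ∀ s : ℤ, ((0 ≤ s ∧ s ≤ σ * (L - 2 * r₂)) ∨ (σ * (L - 2 * r₂) ≤ s ∧ s ≤ 0)) →
      v = c + Pi.single m (σ * L) + Pi.single m s →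
      ∃ t : ℕ, 2 * r₂ ≤ t ∧ (t : ℤ) ≤ L ∧ v = tgt c L m σ - Pi.single m (σ * t) := by
    intro s hs hvs
    rcases h.hσ with h | h
    · subst h
      refine ⟨(L - s).toNat, by omega, by omega, ?_⟩
      rw [hvs, tgt]
      funext i
      simp only [Pi.add_apply, Pi.sub_apply, single_coord]
      split_ifs
      · have : (((L - s).toNat : ℕ) : ℤ) = L - s := by omega
        rw [this]; ring
      · ring
    · subst h
      refine ⟨(L + s).toNat, by omega, by omega, ?_⟩
      rw [hvs, tgt]
      funext i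
      simp only [Pi.add_apply, Pi.sub_apply, single_coord]
      split_ifs
      · have : (((L + s).toNat : ℕ) : ℤ) = L + s := by omega
        rw [this]; ring
      · ring
  rcases mem_pl_cons hv with ⟨s, hs, hvs⟩ | hv
  · exact key s hs hvs
  · refine key (σ * (L - 2 * r₂)) ?_ (mem_pl_nil hv)
    rcases h.hσ with h | h
    · subst h; omega
    · subst h; omega

lemma mem_lane {v : V (n + 2)} (hv : v ∈ lane P c L S r₂ m σ) :
    v ∈ pl P (headD P c L S m σ) ∨ v ∈ pl (c + Pi.single m (σ * L)) [(m, σ * (L - 2 * r₂))] := by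
  have := mem_pl_append _ _ _ hv
  rwa [ep_headD] at this

lemma sd_tail (h : TopH P c L S r₂ ρ m σ) (t : ℕ) :
    sd (tgt c L m σ - Pi.single m (σ * t)) (tgt c L m σ) = t := by
  apply le_antisymm
  · apply sd_le
    intro i
    rw [Pi.sub_apply, single_coord]
    split_ifs
    · rcases sg_cases h t with ⟨_, h⟩ | ⟨_, h⟩ <;> rw [h] <;> omega
    · simp
  · have := le_sd (tgt c L m σ - Pi.single m (σ * t)) (tgt c L m σ) m
    obtain ⟨w, hw⟩ : ∃ w, w = sd (tgt c L m σ - Pi.single m (σ * t)) (tgt c L m σ) := ⟨_, rfl⟩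
    rw [← hw] at this ⊢
    rw [Pi.sub_apply, single_coord, if_pos rfl] at this
    rcases sg_cases h t with ⟨_, h⟩ | ⟨_, h⟩ <;> rw [h] at this <;> omega

lemma lr_head (h : TopH P c L S r₂ ρ m σ) {v : V (n + 2)} (hv : v ∈ pl P (headD P c L S m σ)) :
    lr r₂ ρ (tgt c L m σ) v = ρ := by
  apply lr_far h.hρ
  obtain ⟨g1, g2, g3, g4⟩ := rho_le h
  have h1 := abs_le.1 ((mem_head h hv).1 m)
  have h2 := le_sd v (tgt c L m σ) m
  rw [tgt, Pi.add_apply, Pi.single_eq_same] at h2
  rw [tgt]
  rcases sg_cases h (2 * L) with ⟨_, h⟩ | ⟨_, h⟩ <;> rw [h] at h2 <;> rw [h] <;> omega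

lemma lr_tail (h : TopH P c L S r₂ ρ m σ) (t : ℕ) :
    lr r₂ ρ (tgt c L m σ) (tgt c L m σ - Pi.single m (σ * t)) = max r₂ (min (t / 16) ρ) := by
  rw [lr, sd_tail h]

/-- position of the balls of the lane -/
theorem lane_ball (h : TopH P c L S r₂ ρ m σ) {v x : V (n + 2)} (hv : v ∈ lane P c L S r₂ m σ)
    (hx : x ∈ Bx v (lr r₂ ρ (tgt c L m σ) v)) :
    (∀ i, |x i - c i| ≤ 2 * L) ∧ σ * P m - ρ ≤ σ * x m ∧
      ((P 0 - ρ ≤ x 0 ∧ ∀ i, i ≠ 0 → |x i - P i| ≤ ρ) ∨ P 0 + S - ρ ≤ x 0 ∨
        L - ρ ≤ σ * (x m - c m)) := by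
  obtain ⟨g1, g2, g3, g4⟩ := rho_le h
  rcases mem_lane hv with hv | hv
  · rw [lr_head h hv, mem_Bx] at hx
    have hx' := fun i => abs_le.1 (hx i)
    obtain ⟨h1, h2, h3⟩ := mem_head h hv
    have h1' := fun i => abs_le.1 (h1 i)
    have hxm := hx' m
    refine ⟨fun i => ?_, ?_, ?_⟩
    · have := hx' i
      have := h1' i
      rw [abs_le]; constructor <;> omega
    · rcases h.hσ with h | h
      · subst h; omega
      · subst h; omega
    · rcases h3 with ⟨h3, h4⟩ | h3 | h3
      · left
        refine ⟨by have := hx' 0; omega, fun i hi => ?_⟩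
        rw [← h4 i hi]; exact hx i
      · right; left
        have := hx' 0; omega
      · right; right
        rcases h.hσ with h | h
        · subst h; omega
        · subst h; omega
  · obtain ⟨t, ht1, ht2, rfl⟩ := mem_tail h hv
    rw [lr_tail h, mem_Bx] at hx
    have hx' := fun i => abs_le.1 (hx i)
    have hr : 2 * max r₂ (min (t / 16) ρ) ≤ t := by omega
    have hr' : max r₂ (min (t / 16) ρ) ≤ ρ := by have := h.hρ; omega
    obtain ⟨r, hrr⟩ : ∃ r, r = max r₂ (min (t / 16) ρ) := ⟨_, rfl⟩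
    rw [← hrr] at hx' hr hr'
    have hPm := abs_le.1 (show |P m| ≤ L - 4 * S by have := h.hP m; linarith)
    have hcm := abs_le.1 (h.hc m)
    have hxm := hx' m
    rw [Pi.sub_apply, tgt, Pi.add_apply, Pi.single_eq_same, Pi.single_eq_same] at hxm
    refine ⟨fun i => ?_, ?_, Or.inr (Or.inr ?_)⟩
    · by_cases hi : i = m
      · subst hi
        rw [abs_le]
        rcases h.hσ with h | h
        · subst h; constructor <;> omega
        · subst h; constructor <;> omega
      · have := hx' i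
        rw [Pi.sub_apply, tgt, Pi.add_apply, Pi.single_eq_of_ne hi, Pi.single_eq_of_ne hi] at this
        rw [abs_le]; constructor <;> omega
    · rcases h.hσ with h | h
      · subst h; omega
      · subst h; omega
    · rcases h.hσ with h | h
      · subst h; omega
      · subst h; omega

/-- position of the half ball -/
theorem hb_ball (h : TopH P c L S r₂ ρ m σ) {x : V (n + 2)}
    (hx : x ∈ Bx (hbc c L r₂ m σ) (4 * r₂)) :
    (∀ i, |x i - c i| ≤ 2 * L) ∧ σ * P m - ρ ≤ σ * x m ∧ L - ρ ≤ σ * (x m - c m) := by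
  obtain ⟨g1, g2, g3, g4⟩ := rho_le h
  rw [mem_Bx] at hx
  have hx' := fun i => abs_le.1 (hx i)
  have hPm := abs_le.1 (show |P m| ≤ L - 4 * S by have := h.hP m; linarith)
  have hcm := abs_le.1 (h.hc m)
  have hxm := hx' m
  rw [hbc, Pi.add_apply, Pi.single_eq_same] at hxm
  push_cast at hxm
  refine ⟨fun i => ?_, ?_, ?_⟩
  · by_cases hi : i = m
    · subst hi
      rw [abs_le]
      rcases h.hσ with h | h
      · subst h; constructor <;> omega
      · subst h; constructor <;> omega
    · have := hx' i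
      rw [hbc, Pi.add_apply, Pi.single_eq_of_ne hi] at this
      push_cast at this
      rw [abs_le]; constructor <;> omega
  · rcases h.hσ with h | h
    · subst h; omega
    · subst h; omega
  · rcases h.hσ with h | h
    · subst h; omega
    · subst h; omega

/-- the target is in the half ball -/
lemma tgt_mem_hb (h : TopH P c L S r₂ ρ m σ) : tgt c L m σ ∈ Bx (hbc c L r₂ m σ) (4 * r₂) := by
  rw [mem_Bx]
  intro i
  rw [tgt, hbc, Pi.add_apply, Pi.add_apply, single_coord, single_coord]
  push_cast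
  split_ifs
  · rw [abs_le]
    rcases h.hσ with h | h
    · subst h; constructor <;> omega
    · subst h; constructor <;> omega
  · rw [abs_le]; constructor <;> omega

/-- the last ball is inside the half ball -/
lemma last_sub_hb (h : TopH P c L S r₂ ρ m σ) :
    Bx (tgt c L m σ - Pi.single m (σ * (2 * r₂))) r₂ ⊆ Bx (hbc c L r₂ m σ) (4 * r₂) := by
  intro x hx
  rw [mem_Bx] at hx ⊢
  intro i
  have := abs_le.1 (hx i)
  rw [Pi.sub_apply, tgt, Pi.add_apply, single_coord, single_coord] at this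
  rw [hbc, Pi.add_apply, single_coord]
  push_cast
  split_ifs at this ⊢
  · rw [abs_le]
    rcases h.hσ with h | h
    · subst h; constructor <;> omega
    · subst h; constructor <;> omega
  · rw [abs_le]; constructor <;> omega

lemma lane_chain (h : TopH P c L S r₂ ρ m σ) :
    (wire (lr r₂ ρ (tgt c L m σ)) (lane P c L S r₂ m σ)).IsChain
      (fun a b => (a.1 = b.1 ∨ LatAdj a.1 b.1) ∧ a.2 ≤ 2 * b.2 ∧ b.2 ≤ 2 * a.2) := by
  apply wire_chain (pl_chain _ _)
  intro a _ b _ hab
  have hba : LatAdj b a := by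
    obtain ⟨⟨i, s⟩, rfl⟩ := hab
    refine ⟨(i, !s), ?_⟩
    cases s
    · simp [stepVec, add_assoc, ← Pi.single_add]
    · simp [stepVec, add_assoc, ← Pi.single_add]
  exact ⟨lr_adj h.hr₂ hab _, lr_adj h.hr₂ hba _⟩

lemma lane_head (h : TopH P c L S r₂ ρ m σ) :
    (wire (lr r₂ ρ (tgt c L m σ)) (lane P c L S r₂ m σ)).head? = some (P, ρ) := by
  have h1 : (lane P c L S r₂ m σ).head? = some P := pl_head _ _
  rw [wire_head h1]
  have h2 : P ∈ pl P (headD P c L S m σ) := List.mem_of_mem_head? (by rw [pl_head]; rfl)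
  rw [lr_head h h2]

lemma lane_last (h : TopH P c L S r₂ ρ m σ) :
    (wire (lr r₂ ρ (tgt c L m σ)) (lane P c L S r₂ m σ)).getLast? =
      some (tgt c L m σ - Pi.single m (σ * (2 * r₂)), r₂) := by
  have h1 : (lane P c L S r₂ m σ).getLast? =
      some (tgt c L m σ - Pi.single m (σ * (2 * r₂))) := by
    rw [lane, pl_last, ep_append, ep_headD]
    show some (c + Pi.single m (σ * L) + Pi.single m (σ * (L - 2 * r₂))) = _
    congr 1
    funext i
    rw [tgt]
    simp only [Pi.add_apply, Pi.sub_apply, single_coord]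
    split_ifs <;> ring
  rw [wire_last h1]
  have h2 := lr_tail h (2 * r₂)
  push_cast at h2
  rw [h2]
  have : max r₂ (min (2 * r₂ / 16) ρ) = r₂ := by omega
  rw [this]

/-- number of vertices of the first part -/
lemma head_length (h : TopH P c L S r₂ ρ m σ) :
    ((pl P (headD P c L S m σ)).length : ℤ) ≤ (n + 5) * L := by
  obtain ⟨g1, g2, g3, g4⟩ := rho_le h
  have hS := h.hS
  have hP0 := h.hP0
  have hc := fun i => abs_le.1 (h.hc i)
  have hP : ∀ i, -(L - 4 * S) ≤ P i ∧ P i ≤ L - 4 * S := fun i => by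
    have := h.hP i
    exact abs_le.1 (by linarith)
  have hB : ∀ i, (c i - P i).natAbs ≤ L.toNat := fun i => by
    have := hc i
    have := hP i
    omega
  have hc0 := hc 0
  have hp0 := hP 0
  rw [length_pl]
  unfold headD
  split_ifs with hm
  · subst hm
    have hσ := h.hm rfl
    subst hσ
    have h1 := sum_fixd P c L.toNat hB (latF n)
    rw [latF_length] at h1
    rw [List.map_cons, List.sum_cons]
    obtain ⟨s, hs⟩ : ∃ s, s = ((fixd P c (latF n)).map fun q => q.2.natAbs).sum := ⟨_, rfl⟩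
    rw [← hs] at h1 ⊢
    have h2 : (s : ℤ) ≤ (n + 1) * L := by
      have h3 : ((L.toNat : ℕ) : ℤ) = L := by omega
      calc (s : ℤ) ≤ (((n + 1) * L.toNat : ℕ) : ℤ) := by exact_mod_cast h1
        _ = (n + 1) * L := by push_cast; rw [h3]
    have h4 : ((c 0 + 1 * L - P 0).natAbs : ℤ) ≤ 2 * L := by omega
    push_cast at h4 ⊢
    nlinarith
  · have h1 := sum_fixd P c L.toNat hB ((latF n).filter (· ≠ m))
    have h1' : ((latF n).filter (· ≠ m)).length ≤ n + 1 := by
      rw [← latF_length (n := n)]; exact List.length_filter_le _ _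
    rw [List.map_cons, List.sum_cons, List.map_cons, List.sum_cons, List.map_append,
      List.sum_append, List.map_cons, List.sum_cons, List.map_nil, List.sum_nil]
    obtain ⟨s, hs⟩ : ∃ s, s = ((fixd P c ((latF n).filter (· ≠ m))).map fun q => q.2.natAbs).sum :=
      ⟨_, rfl⟩
    rw [← hs] at h1 ⊢
    have h2 : (s : ℤ) ≤ (n + 1) * L := by
      have h3 : ((L.toNat : ℕ) : ℤ) = L := by omega
      have h5 : s ≤ (n + 1) * L.toNat := h1.trans (Nat.mul_le_mul_right _ h1')
      calc (s : ℤ) ≤ (((n + 1) * L.toNat : ℕ) : ℤ) := by exact_mod_cast h5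
        _ = (n + 1) * L := by push_cast; rw [h3]
    have hcm := hc m
    have hPm := hP m
    have hσL : σ * L = L ∨ σ * L = -L := by
      rcases h.hσ with h | h <;> rw [h] <;> simp
    have h4 : ((c m + σ * L - P m).natAbs : ℤ) ≤ 2 * L := by omega
    have h5 : (S.natAbs : ℤ) + ((c 0 - P 0 - S).natAbs : ℤ) + 1 ≤ 2 * L := by omega
    push_cast at h4 h5 ⊢
    nlinarith

lemma lane_length (h : TopH P c L S r₂ ρ m σ) :
    ((lane P c L S r₂ m σ).length : ℤ) ≤ (n + 6) * L := by
  have h1 := head_length h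
  obtain ⟨g1, g2, g3, g4⟩ := rho_le h
  rw [length_pl] at h1
  rw [lane, length_pl, List.map_append, List.sum_append, List.map_cons, List.sum_cons, List.map_nil,
    List.sum_nil]
  have h2 : ((σ * (L - 2 * r₂)).natAbs : ℤ) ≤ L := by
    rcases sg_cases h (L - 2 * r₂) with ⟨_, h⟩ | ⟨_, h⟩ <;> rw [h] <;> omega
  push_cast at h1 h2 ⊢
  nlinarith

lemma lane_sum_split (h : TopH P c L S r₂ ρ m σ) (f : V (n + 2) → ℝ) (hf : ∀ v, 0 ≤ f v) :
    ∑ v ∈ (lane P c L S r₂ m σ).toFinset, f v ≤
      ∑ v ∈ (pl P (headD P c L S m σ)).toFinset, f v +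
      ∑ t ∈ Finset.range (L.toNat + 1), f (tgt c L m σ - Pi.single m (σ * (t : ℤ))) := by
  have hsub : (lane P c L S r₂ m σ).toFinset ⊆ (pl P (headD P c L S m σ)).toFinset ∪
      (Finset.range (L.toNat + 1)).image
        (fun t : ℕ => tgt c L m σ - Pi.single m (σ * (t : ℤ))) := by
    intro v hv
    rw [Finset.mem_union, List.mem_toFinset]
    rcases mem_lane (List.mem_toFinset.1 hv) with h1 | h1
    · exact Or.inl h1
    · right
      obtain ⟨t, _, ht, rfl⟩ := mem_tail h h1
      exact Finset.mem_image.2 ⟨t, Finset.mem_range.2 (by omega), rfl⟩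
  have h2 : ∑ v ∈ (Finset.range (L.toNat + 1)).image
      (fun t : ℕ => tgt c L m σ - Pi.single m (σ * (t : ℤ))), f v =
      ∑ t ∈ Finset.range (L.toNat + 1), f (tgt c L m σ - Pi.single m (σ * (t : ℤ))) := by
    apply Finset.sum_image
    intro t _ t' _ htt
    have e1 := sd_tail h t
    have e2 := sd_tail h t'
    have htt' : tgt c L m σ - Pi.single m (σ * (t : ℤ)) = tgt c L m σ - Pi.single m (σ * (t' : ℤ)) :=
      htt
    rw [htt'] at e1
    exact e1.symm.trans e2
  rw [← h2]
  refine (Finset.sum_le_sum_of_subset_of_nonneg hsub fun v _ _ => hf v).trans ?_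
  have h3 := Finset.sum_union_inter (f := f) (s₁ := (pl P (headD P c L S m σ)).toFinset)
    (s₂ := (Finset.range (L.toNat + 1)).image
      (fun t : ℕ => tgt c L m σ - Pi.single m (σ * (t : ℤ))))
  rw [← h3]
  exact le_add_of_nonneg_right (Finset.sum_nonneg fun v _ => hf v)

/-- the sum of the failure probabilities over a lane -/
theorem lane_sum (h : TopH P c L S r₂ ρ m σ) {K k ε : ℝ} (hK : 0 ≤ K)
    (hseg : ∀ N s : ℕ, ∑ t ∈ Finset.range N, K * Real.exp (-k * ((max r₂ (min (t / 16) s) : ℕ) : ℝ)) ≤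
      ε + N * (K * Real.exp (-k * s))) :
    ∑ v ∈ (lane P c L S r₂ m σ).toFinset, K * Real.exp (-k * (lr r₂ ρ (tgt c L m σ) v : ℝ)) ≤
      ε + (n + 7) * L * (K * Real.exp (-k * ρ)) := by
  obtain ⟨g1, g2, g3, g4⟩ := rho_le h
  obtain ⟨X, hX⟩ : ∃ X, X = K * Real.exp (-k * ρ) := ⟨_, rfl⟩
  have hX0 : 0 ≤ X := by rw [hX]; exact mul_nonneg hK (Real.exp_pos _).le
  have h0 := lane_sum_split h (fun v => K * Real.exp (-k * (lr r₂ ρ (tgt c L m σ) v : ℝ)))
    (fun v => mul_nonneg hK (Real.exp_pos _).le)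
  have h1 : ∑ v ∈ (pl P (headD P c L S m σ)).toFinset,
      K * Real.exp (-k * (lr r₂ ρ (tgt c L m σ) v : ℝ)) ≤ (n + 5) * L * X := by
    have e1 : ∑ v ∈ (pl P (headD P c L S m σ)).toFinset,
        K * Real.exp (-k * (lr r₂ ρ (tgt c L m σ) v : ℝ)) =
        ∑ v ∈ (pl P (headD P c L S m σ)).toFinset, X := by
      apply Finset.sum_congr rfl
      intro v hv
      rw [lr_head h (List.mem_toFinset.1 hv), hX]
    rw [e1, Finset.sum_const, nsmul_eq_mul]
    apply mul_le_mul_of_nonneg_right _ hX0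
    have e2 : ((pl P (headD P c L S m σ)).toFinset.card : ℝ) ≤ (pl P (headD P c L S m σ)).length := by
      exact_mod_cast List.toFinset_card_le _
    refine e2.trans ?_
    have e3 := head_length h
    have e4 : (((pl P (headD P c L S m σ)).length : ℤ) : ℝ) ≤ (((n + 5) * L : ℤ) : ℝ) := by
      exact_mod_cast e3
    push_cast at e4
    exact e4
  have h2 : ∑ t ∈ Finset.range (L.toNat + 1),
      K * Real.exp (-k * (lr r₂ ρ (tgt c L m σ) (tgt c L m σ - Pi.single m (σ * (t : ℤ))) : ℝ)) ≤
      ε + (L.toNat + 1) * X := by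
    have e1 := hseg (L.toNat + 1) ρ
    rw [← hX] at e1
    have e2 : ∑ t ∈ Finset.range (L.toNat + 1),
        K * Real.exp (-k * (lr r₂ ρ (tgt c L m σ) (tgt c L m σ - Pi.single m (σ * (t : ℤ))) : ℝ)) =
        ∑ t ∈ Finset.range (L.toNat + 1),
          K * Real.exp (-k * ((max r₂ (min (t / 16) ρ) : ℕ) : ℝ)) := by
      apply Finset.sum_congr rfl
      intro t _
      rw [lr_tail h]
    rw [e2]
    refine e1.trans (le_of_eq ?_)
    push_cast
    ring
  have h3 : ((L.toNat : ℕ) : ℝ) = (L : ℝ) := by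
    have : ((L.toNat : ℕ) : ℤ) = L := by omega
    exact_mod_cast this
  have h4 : (1 : ℝ) ≤ L := by
    have : (1 : ℤ) ≤ L := by omega
    exact_mod_cast this
  rw [h3] at h2
  have h5 : (L + 1) * X ≤ 2 * L * X := mul_le_mul_of_nonneg_right (by linarith) hX0
  have h6 := add_le_add h1 h2
  rw [← hX]
  refine (h0.trans h6).trans ?_
  linarith

/-- the region of a lane -/
def laneReg (P c : V (n + 2)) (L S : ℤ) (r₂ ρ : ℕ) (m : Fin (n + 2)) (σ : ℤ) : Set (V (n + 2)) :=
  {x | (∃ v ∈ lane P c L S r₂ m σ, x ∈ Bx v (lr r₂ ρ (tgt c L m σ) v)) ∨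
    x ∈ Bx (hbc c L r₂ m σ) (4 * r₂)}

/-- position of the region of the lane -/
theorem reg_pos (h : TopH P c L S r₂ ρ m σ) {x : V (n + 2)} (hx : x ∈ laneReg P c L S r₂ ρ m σ) :
    (∀ i, |x i - c i| ≤ 2 * L) ∧ σ * P m - ρ ≤ σ * x m ∧
      ((P 0 - ρ ≤ x 0 ∧ ∀ i, i ≠ 0 → |x i - P i| ≤ ρ) ∨ P 0 + S - ρ ≤ x 0 ∨
        L - ρ ≤ σ * (x m - c m)) := by
  rcases hx with ⟨v, hv, hx⟩ | hx
  · exact lane_ball h hv hx
  · obtain ⟨h1, h2, h3⟩ := hb_ball h hx
    exact ⟨h1, h2, Or.inr (Or.inr h3)⟩

/-- THE ROAD of a lane: `ω'` regular along the lane, `ω` equal to `ω'` on the region off the half ball,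
the half ball fully open in `ω` -/
theorem lane_road {κ : Kind} {p : unitInterval} (RS : RoadSys κ (n + 2) p)
    (h : TopH P c L S r₂ ρ m σ) {ω ω' : El (n + 2) → Bool}
    (hreg : ∀ v ∈ lane P c L S r₂ m σ, ω' ∈ RS.reg v (lr r₂ ρ (tgt c L m σ) v))
    (hag : ∀ e ∈ InE (laneReg P c L S r₂ ρ m σ), e ∉ InE (Bx (hbc c L r₂ m σ) (4 * r₂) : Set (V (n + 2))) →
      ω e = ω' e)
    (hful : ∀ e ∈ InE (Bx (hbc c L r₂ m σ) (4 * r₂) : Set (V (n + 2))), ω e = true) :
    Rw κ ω (laneReg P c L S r₂ ρ m σ) (RS.hub P ρ ω') (tgt c L m σ)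
      (∑ v ∈ (lane P c L S r₂ m σ).toFinset, RS.lam v (lr r₂ ρ (tgt c L m σ) v) ω' +
        (Bx (hbc c L r₂ m σ) (4 * r₂)).card) := by
  classical
  obtain ⟨z, hz⟩ : ∃ z, z = tgt c L m σ - Pi.single m (σ * (2 * r₂)) := ⟨_, rfl⟩
  have hlast := lane_last h
  rw [← hz] at hlast
  have h1 := road_of_wire RS (lane_chain h) (ω := ω') (by
    intro q hq
    obtain ⟨hq1, hq2⟩ := mem_wire.1 hq
    rw [hq2]
    exact ⟨h.hr₂.trans (lr_ge _ _), hreg _ hq1⟩) (lane_head h) hlast
  have hsum : ∑ q ∈ (wire (lr r₂ ρ (tgt c L m σ)) (lane P c L S r₂ m σ)).toFinset,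
      RS.lam q.1 q.2 ω' =
      ∑ v ∈ (lane P c L S r₂ m σ).toFinset, RS.lam v (lr r₂ ρ (tgt c L m σ) v) ω' := by
    have e1 : (wire (lr r₂ ρ (tgt c L m σ)) (lane P c L S r₂ m σ)).toFinset =
        (lane P c L S r₂ m σ).toFinset.image fun v => (v, lr r₂ ρ (tgt c L m σ) v) := by
      ext q
      rw [List.mem_toFinset, mem_wire, Finset.mem_image]
      constructor
      · rintro ⟨h1, h2⟩
        exact ⟨q.1, List.mem_toFinset.2 h1, by rw [← h2]⟩
      · rintro ⟨v, hv, rfl⟩
        exact ⟨List.mem_toFinset.1 hv, rfl⟩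
    rw [e1, Finset.sum_image]
    intro a _ b _ hab
    exact (Prod.mk.inj hab).1
  rw [hsum] at h1
  have hsub : {v | ∃ q ∈ wire (lr r₂ ρ (tgt c L m σ)) (lane P c L S r₂ m σ), v ∈ Bx q.1 q.2} ⊆
      laneReg P c L S r₂ ρ m σ := by
    rintro v ⟨q, hq, hv⟩
    obtain ⟨hq1, hq2⟩ := mem_wire.1 hq
    rw [hq2] at hv
    exact Or.inl ⟨q.1, hq1, hv⟩
  have h2 : Rw κ ω' (laneReg P c L S r₂ ρ m σ) (RS.hub P ρ ω') (RS.hub z r₂ ω')
      (∑ v ∈ (lane P c L S r₂ m σ).toFinset, RS.lam v (lr r₂ ρ (tgt c L m σ) v) ω') :=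
    Pool.Agent.H94.BM.rw_mono (fun _ h => h) hsub le_rfl h1
  have h3 := rw_on (ω' := ω) (fun e he hω => by
    by_cases hb : e ∈ InE (Bx (hbc c L r₂ m σ) (4 * r₂) : Set (V (n + 2)))
    · exact hful e hb
    · rw [hag e he hb]; exact hω) h2
  have hzreg : ω' ∈ RS.reg z r₂ := by
    have hm : z ∈ lane P c L S r₂ m σ := by
      have := List.mem_of_getLast? hlast
      exact (mem_wire.1 this).1
    have := hreg z hm
    have e2 := lr_tail h (2 * r₂)
    push_cast at e2
    rw [← hz] at e2
    rw [e2] at this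
    have e3 : max r₂ (min (2 * r₂ / 16) ρ) = r₂ := by omega
    rwa [e3] at this
  have hhub : RS.hub z r₂ ω' ∈ Bx (hbc c L r₂ m σ) (4 * r₂) := by
    apply last_sub_hb h
    rw [← hz]
    exact RS.hub_mem _ _ _ hzreg
  have h4 := Pool.Agent.H94.BM.rw_box (κ := κ) hful hhub (tgt_mem_hb h)
  have h5 : Rw κ ω (laneReg P c L S r₂ ρ m σ) (RS.hub z r₂ ω') (tgt c L m σ)
      (Bx (hbc c L r₂ m σ) (4 * r₂)).card :=
    Pool.Agent.H94.BM.rw_mono (fun _ h => h) (fun v hv => Or.inr hv) le_rfl h4
  exact Pool.Agent.H94.BM.rw_trans h3 h5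

end lane

end Pool.Agent.H74.HG
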