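import Pool.Agent.H74.HG.Top
import Pool.Agent.H17.QA.HookDefs

/-!
# HG module TopReq: requirements and road of a top lane in the original coordinates

`laneReq φ …`: the requirements `(φ, v, lr v)`, `v` in the lane. `laneReq_card`, `laneReq_sum`, `laneReq_dep` (every
element on which a requirement depends is the image of an element inside `laneReg`, whose position is given by
`reg_pos`), `laneReq_road`.
-/

open MeasureTheory Filter Topology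
open Pool.Agent.H17.IIC Pool.Agent.H41.QC Pool.Agent.H47.GM Pool.Agent.H17.QA

namespace Pool.Agent.H74.HG

variable {n : ℕ} {P c : V (n + 2)} {L S : ℤ} {r₂ ρ : ℕ} {m : Fin (n + 2)} {σ : ℤ}

lemma inE_map {d : ℕ} {φ : V d ≃ V d} {U : Set (V d)} {e : El d} :
    e.map φ ∈ InE (φ '' U) ↔ e ∈ InE U := by
  constructor
  · intro h v hv
    obtain ⟨w, hw, hwv⟩ := h (φ v) (Sym2.mem_map.2 ⟨v, hv, rfl⟩)
    rwa [← φ.injective hwv]
  · intro h v hv
    obtain ⟨w, hw, rfl⟩ := Sym2.mem_map.1 hv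
    exact ⟨w, h w hw, rfl⟩

open Classical in
/-- the requirements of a lane -/
noncomputable def laneReq (φ : V (n + 2) ≃ V (n + 2)) (P c : V (n + 2)) (L S : ℤ) (r₂ ρ : ℕ)
    (m : Fin (n + 2)) (σ : ℤ) : Finset (Req (n + 2)) :=
  (lane P c L S r₂ m σ).toFinset.image fun v => ⟨φ, v, lr r₂ ρ (tgt c L m σ) v⟩

lemma mem_laneReq {φ : V (n + 2) ≃ V (n + 2)} {q : Req (n + 2)} :
    q ∈ laneReq φ P c L S r₂ ρ m σ ↔
      ∃ v ∈ lane P c L S r₂ m σ, q = ⟨φ, v, lr r₂ ρ (tgt c L m σ) v⟩ := by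
  classical
  rw [laneReq, Finset.mem_image]
  constructor
  · rintro ⟨v, hv, rfl⟩
    exact ⟨v, List.mem_toFinset.1 hv, rfl⟩
  · rintro ⟨v, hv, rfl⟩
    exact ⟨v, List.mem_toFinset.2 hv, rfl⟩

lemma laneReq_big (φ : V (n + 2) ≃ V (n + 2)) {M : Type*} [AddCommMonoid M]
    (f : Req (n + 2) → M) : ∑ q ∈ laneReq φ P c L S r₂ ρ m σ, f q =
      ∑ v ∈ (lane P c L S r₂ m σ).toFinset, f ⟨φ, v, lr r₂ ρ (tgt c L m σ) v⟩ := by
  classical
  rw [laneReq]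
  apply Finset.sum_image
  intro a _ b _ hab
  exact congrArg Req.z hab

lemma laneReq_card (φ : V (n + 2) ≃ V (n + 2)) (h : TopH P c L S r₂ ρ m σ) :
    ((laneReq φ P c L S r₂ ρ m σ).card : ℝ) ≤ (n + 6) * L := by
  classical
  have h1 : (laneReq φ P c L S r₂ ρ m σ).card ≤ (lane P c L S r₂ m σ).length :=
    Finset.card_image_le.trans (List.toFinset_card_le _)
  have h2 := lane_length h
  have h3 : (((lane P c L S r₂ m σ).length : ℤ) : ℝ) ≤ (((n + 6) * L : ℤ) : ℝ) := by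
    exact_mod_cast h2
  have h4 : ((laneReq φ P c L S r₂ ρ m σ).card : ℝ) ≤ (lane P c L S r₂ m σ).length := by
    exact_mod_cast h1
  push_cast at h3
  linarith

lemma laneReq_rad {φ : V (n + 2) ≃ V (n + 2)} (h : TopH P c L S r₂ ρ m σ) {q : Req (n + 2)}
    (hq : q ∈ laneReq φ P c L S r₂ ρ m σ) : r₂ ≤ q.r ∧ q.r ≤ ρ ∧ q.φ = φ := by
  obtain ⟨v, _, rfl⟩ := mem_laneReq.1 hq
  exact ⟨lr_ge _ _, lr_le h.hρ _ _, rfl⟩

lemma laneReq_sum (φ : V (n + 2) ≃ V (n + 2)) (h : TopH P c L S r₂ ρ m σ) {K k ε : ℝ} (hK : 0 ≤ K)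
    (hseg : ∀ N s : ℕ, ∑ t ∈ Finset.range N, K * Real.exp (-k * ((max r₂ (min (t / 16) s) : ℕ) : ℝ)) ≤
      ε + N * (K * Real.exp (-k * s))) :
    ∑ q ∈ laneReq φ P c L S r₂ ρ m σ, K * Real.exp (-k * q.r) ≤
      ε + (n + 7) * L * (K * Real.exp (-k * ρ)) := by
  classical
  have h1 := lane_sum h hK hseg
  rw [laneReq_big]
  exact h1

/-- the elements on which the requirements depend -/
lemma laneReq_dep {φ : V (n + 2) ≃ V (n + 2)} {q : Req (n + 2)}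
    (hq : q ∈ laneReq φ P c L S r₂ ρ m σ) {e : El (n + 2)} (he : e ∈ q.dep) :
    ∃ e' ∈ InE (laneReg P c L S r₂ ρ m σ), e = e'.map φ := by
  obtain ⟨v, hv, rfl⟩ := mem_laneReq.1 hq
  obtain ⟨e', he', rfl⟩ := he
  exact ⟨e', fun x hx => Or.inl ⟨v, hv, he' x hx⟩, rfl⟩

/-- THE ROAD of a lane in the original coordinates -/
theorem laneReq_road {κ : Kind} {p : unitInterval} (RS : RoadSys κ (n + 2) p)
    {φ : V (n + 2) ≃ V (n + 2)} (hφ : IsAut φ) (h : TopH P c L S r₂ ρ m σ)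
    {ω ω' : El (n + 2) → Bool} (hreg : ∀ q ∈ laneReq φ P c L S r₂ ρ m σ, q.ok RS ω')
    (hag : ∀ e ∈ InE (φ '' laneReg P c L S r₂ ρ m σ),
      e ∉ InE (φ '' (Bx (hbc c L r₂ m σ) (4 * r₂) : Set (V (n + 2)))) → ω e = ω' e)
    (hful : ∀ e ∈ InE (φ '' (Bx (hbc c L r₂ m σ) (4 * r₂) : Set (V (n + 2)))), ω e = true) :
    Rw κ ω (φ '' laneReg P c L S r₂ ρ m σ) (φ (RS.hub P ρ (tr φ ω'))) (φ (tgt c L m σ))
      (∑ q ∈ laneReq φ P c L S r₂ ρ m σ, q.cost RS ω' + (Bx (hbc c L r₂ m σ) (4 * r₂)).card) := by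
  classical
  have h1 := lane_road RS h (ω := tr φ ω) (ω' := tr φ ω')
    (fun v hv => hreg _ (mem_laneReq.2 ⟨v, hv, rfl⟩))
    (fun e he he' => hag _ (inE_map.2 he) (fun h' => he' (inE_map.1 h')))
    (fun e he => hful _ (inE_map.2 he))
  have h2 : ∑ v ∈ (lane P c L S r₂ m σ).toFinset, RS.lam v (lr r₂ ρ (tgt c L m σ) v) (tr φ ω') =
      ∑ q ∈ laneReq φ P c L S r₂ ρ m σ, q.cost RS ω' := by
    rw [laneReq_big]
    rfl
  rw [h2] at h1
  exact rw_tr hφ h1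

end Pool.Agent.H74.HG
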